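import Pool.Agent.Y605.BT.Five
import Pool.Agent.NPC.Dec

/-!
# Book thickness is NP-hard to approximate on graphs close to disjoint unions of paths

The graphs are those of the library `TH656/Bt` (bin packing with unary numbers).  They have
pathwidth at most 6, become disjoint unions of paths when 8197 vertices are deleted (four hubs and
one vertex for each of the 8193 copies of a gadget), and always have a book embedding with five
pages.
-/

set_option autoImplicit false

namespace Pool.Agent.Results.MP_cfb5a8_lc.NearLinearForests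

open Pool.Agent.NPC Pool.Agent.H692R2 Pool.Agent.TH656.Bt Pool.Agent.Y605.BX Pool.Agent.Y605.BT
open Pool.Agent.TH656.Bx (treewidth)

/-- **Book thickness of graphs near disjoint unions of paths.**
Every language in NP has a polynomial-time reduction to graphs of pathwidth and treewidth at most
`6` which become disjoint unions of paths if at most `8197` vertices are deleted: members are
mapped to graphs of book thickness at most `4`, other words to graphs of book thickness `5`.
If for some `k ≥ 6` and some `r < 5/4` a polynomial-time algorithm approximates the book thickness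
within the factor `r` on such graphs of pathwidth and treewidth at most `k`, then every language in
NP is in P. -/
theorem result :
    (∀ L : Set (List Bool), InNP L → ∃ f : List Bool → FinGraph, PolyTime (fun x => bits (f x)) ∧
      ∀ x, NearPaths (f x).graph 8197 ∧ pathwidth (f x).graph ≤ 6 ∧ treewidth (f x).graph ≤ 6 ∧
        (x ∈ L → bookThickness (f x).graph ≤ 4) ∧ (x ∉ L → bookThickness (f x).graph = 5)) ∧
    ∀ k : ℕ, 6 ≤ k → ∀ r : ℝ, r < 5 / 4 → (∃ A : List Bool → List Bool, PolyTime A ∧
        ∀ G : FinGraph, NearPaths G.graph 8197 → pathwidth G.graph ≤ k → treewidth G.graph ≤ k →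
          ∃ v : ℕ, A (bits G) = bits v ∧ bookThickness G.graph ≤ v ∧
            (v : ℝ) ≤ r * bookThickness G.graph) →
      ∀ L : Set (List Bool), InNP L → InP L := by
  have h0 : ∀ L : Set (List Bool), InNP L → ∃ f : List Bool → FinGraph,
      PolyTime (fun x => bits (f x)) ∧
      ∀ x, NearPaths (f x).graph 8197 ∧ pathwidth (f x).graph ≤ 6 ∧ treewidth (f x).graph ≤ 6 ∧
        (x ∈ L → bookThickness (f x).graph ≤ 4) ∧ (x ∉ L → bookThickness (f x).graph = 5) := by
    intro L hL
    obtain ⟨f, hf, h1, h2⟩ := hard5 L hL
    refine ⟨f, PC.toPolyTime hf, fun x => ?_⟩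
    obtain ⟨h3, h4, h5, h6⟩ := h1 x
    refine ⟨h3, h4, h5, (h2 x).1, fun hx => ?_⟩
    have h7 : ¬ bookThickness (f x).graph ≤ 4 := fun h => hx ((h2 x).2 h)
    omega
  refine ⟨h0, ?_⟩
  rintro k hk r hr ⟨A, hA, hA'⟩ L hL
  obtain ⟨f, hf, hf'⟩ := h0 L hL
  have hg := NPC.Poly.optCases (o := fun y : List Bool => unbits ℕ y) (g := fun _ => false)
    (h := fun _ n => decide (n ≤ 4)) poly_unbits (NPC.Poly.const _)
    (NPC.Poly.decide_le (NPC.Poly.snd NPC.Poly.id) (NPC.Poly.const 4))
  have hF := H642R2.TMSim.polyTime_comp hA hf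
  refine ⟨_, polyTime_test hF hg, fun x => ?_⟩
  obtain ⟨h1, h2, h3, h4, h5⟩ := hf' x
  obtain ⟨v, hv, hv1, hv2⟩ := hA' (f x) h1 (h2.trans hk) (h3.trans hk)
  rw [hv, unbits_bits]
  change x ∈ L ↔ [decide (v ≤ 4)] = [true]
  simp only [List.cons.injEq, and_true, decide_eq_true_eq]
  constructor
  · intro hx
    have h6 : (bookThickness (f x).graph : ℝ) ≤ 4 := by exact_mod_cast h4 hx
    have h7 : (v : ℝ) < 5 := by
      by_cases hr0 : r ≤ 0
      · have : r * (bookThickness (f x).graph : ℝ) ≤ 0 :=
          mul_nonpos_of_nonpos_of_nonneg hr0 (Nat.cast_nonneg _)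
        linarith
      · push Not at hr0
        have : r * (bookThickness (f x).graph : ℝ) ≤ r * 4 := mul_le_mul_of_nonneg_left h6 hr0.le
        linarith
    have h8 : v < 5 := by exact_mod_cast h7
    omega
  · intro h
    by_contra hx
    have := h5 hx
    omega

end Pool.Agent.Results.MP_cfb5a8_lc.NearLinearForests
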